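import Pool.Agent.H82.SZ.Ms
import Pool.Agent.H4.Mertens

/-!
# MP_103a5c SimpleZeros: the diagonal sums
-/

open Finset Filter Topology
open scoped ArithmeticFunction.vonMangoldt ArithmeticFunction.Moebius ArithmeticFunction.zeta

namespace H82SZ

lemma int_Ioi_eq {h : ℝ → ℝ} (h1 : ∀ v, 1 ≤ v → h v = 0) :
    (∫ x in Set.Ioi (0 : ℝ), x * h x) = ∫ v in (0 : ℝ)..1, v * h v := by
  rw [intervalIntegral.integral_of_le zero_le_one]
  apply MeasureTheory.setIntegral_eq_of_subset_of_forall_sdiff_eq_zero measurableSet_Ioi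
  · exact Set.Ioc_subset_Ioi_self
  · intro x hx
    have hx1 : 0 < x := hx.1
    have hx2 : 1 < x := by
      by_contra hc
      exact hx.2 ⟨hx1, not_lt.1 hc⟩
    rw [h1 x hx2.le, mul_zero]

lemma tsum_NT {h : ℝ → ℝ} (h1 : ∀ v, 1 ≤ v → h v = 0) {T : ℝ} (hT : 1 < T) (f : ℕ → ℝ) (f0 : f 0 = 0) :
    ∑' n : ℕ, f n * h (Real.log n / Real.log T) = ∑ n ∈ Icc 1 (NT T), f n * h (Real.log n / Real.log T) := by
  apply tsum_eq_sum
  intro n hn
  rcases Nat.eq_zero_or_pos n with h0 | hpos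
  · rw [h0, f0, zero_mul]
  · have hl := Real.log_pos hT
    have hn' : NT T < n := by
      by_contra hc
      exact hn (mem_Icc.2 ⟨hpos, not_lt.1 hc⟩)
    have hTn : T < n := (Nat.floor_lt (by linarith)).1 hn'
    rw [h1 _ ?_, mul_zero]
    rw [le_div_iff₀ hl, one_mul]
    exact Real.log_le_log (by linarith) hTn.le

lemma log_le_of_mem {T : ℝ} (hT : 1 < T) {n : ℕ} (hn : n ∈ Icc 1 (NT T)) : Real.log n ≤ Real.log T := by
  obtain ⟨h1, h2⟩ := mem_Icc.1 hn
  have : (n : ℝ) ≤ T := (Nat.le_floor_iff (by linarith)).1 h2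
  exact Real.log_le_log (by exact_mod_cast h1) this

/-- **sums over prime powers** -/
theorem pp_sum {h : ℝ → ℝ} (hh : Continuous h) (hs : HasCompactSupport h) (h1 : ∀ v, 1 ≤ v → h v = 0)
    {g : ℝ → ℕ → ℝ} {c K : ℝ} (hK : 0 ≤ K)
    (gp : ∀ T, 1 < T → ∀ p : ℕ, p.Prime → g T p = c * Real.log p)
    (gb : ∀ T, 1 < T → ∀ n : ℕ, IsPrimePow n → Real.log n ≤ Real.log T → |g T n| ≤ K * Real.log T) :
    Tendsto (fun T => (1 / Real.log T ^ 2) * ∑ n ∈ Icc 1 (NT T), Λ n / n * (h (Real.log n / Real.log T) * g T n))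
      atTop (𝓝 (c * ∫ v in (0 : ℝ)..1, v * h v)) := by
  obtain ⟨H, hH⟩ := hh.bounded_above_of_compact_support hs
  have hH0 : 0 ≤ H := (norm_nonneg _).trans (hH 0)
  set D := ∑' n : ℕ, (if n.Prime then 0 else Λ n) / (n : ℝ) with hD
  have hterm0 : ∀ n : ℕ, 0 ≤ (if n.Prime then 0 else Λ n) / (n : ℝ) := by
    intro n
    split_ifs
    · simp
    · exact div_nonneg ArithmeticFunction.vonMangoldt_nonneg (Nat.cast_nonneg n)
  have hD0 : 0 ≤ D := tsum_nonneg hterm0
  have m2 := (Pool.Agent.H4.mertens_two hh hs).comp Real.tendsto_log_atTop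
  rw [int_Ioi_eq h1] at m2
  have e2 : Tendsto (fun T => H * (K + |c|) * D / Real.log T) atTop (𝓝 0) :=
    tendsto_const_nhds.div_atTop Real.tendsto_log_atTop
  have e3 : Tendsto (fun T => (1 / Real.log T ^ 2) * ∑ n ∈ Icc 1 (NT T), Λ n / n * (h (Real.log n / Real.log T) * g T n)
      - c * ((1 / Real.log T ^ 2) * ∑' n : ℕ, (Λ n) ^ 2 / n * h (Real.log n / Real.log T))) atTop (𝓝 0) := by
    refine squeeze_zero_norm' ?_ e2
    filter_upwards [eventually_gt_atTop 1] with T hT
    have hl := Real.log_pos hT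
    rw [tsum_NT h1 hT (fun n => (Λ n) ^ 2 / n) (by simp)]
    have e4 : (1 / Real.log T ^ 2) * ∑ n ∈ Icc 1 (NT T), Λ n / n * (h (Real.log n / Real.log T) * g T n)
      - c * ((1 / Real.log T ^ 2) * ∑ n ∈ Icc 1 (NT T), (Λ n) ^ 2 / n * h (Real.log n / Real.log T)) =
      (1 / Real.log T ^ 2) * ∑ n ∈ Icc 1 (NT T), Λ n / n * (h (Real.log n / Real.log T) * (g T n - c * Λ n)) := by
      rw [mul_left_comm c, ← mul_sub, Finset.mul_sum (a := c), ← Finset.sum_sub_distrib]
      congr 1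
      refine Finset.sum_congr rfl fun n _ => ?_
      ring
    rw [e4, Real.norm_eq_abs, abs_mul, abs_of_pos (by positivity : 0 < 1 / Real.log T ^ 2)]
    have e5 : |∑ n ∈ Icc 1 (NT T), Λ n / n * (h (Real.log n / Real.log T) * (g T n - c * Λ n))| ≤
        ∑ n ∈ Icc 1 (NT T), (if n.Prime then 0 else Λ n) / (n : ℝ) * (H * ((K + |c|) * Real.log T)) := by
      refine (Finset.abs_sum_le_sum_abs _ _).trans (Finset.sum_le_sum fun n hn => ?_)
      by_cases hp : n.Prime
      · rw [gp T hT n hp, ArithmeticFunction.vonMangoldt_apply_prime hp, sub_self, mul_zero, mul_zero, abs_zero,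
          if_pos hp, zero_div, zero_mul]
      · rw [if_neg hp]
        by_cases hpp : IsPrimePow n
        · rw [abs_mul, abs_mul, abs_of_nonneg (div_nonneg ArithmeticFunction.vonMangoldt_nonneg (Nat.cast_nonneg n))]
          refine mul_le_mul_of_nonneg_left ?_ (div_nonneg ArithmeticFunction.vonMangoldt_nonneg (Nat.cast_nonneg n))
          have hln := log_le_of_mem hT hn
          refine mul_le_mul (hH _) ?_ (abs_nonneg _) hH0
          have a1 := gb T hT n hpp hln
          have a2 : |c * Λ n| ≤ |c| * Real.log T := by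
            rw [abs_mul, abs_of_nonneg ArithmeticFunction.vonMangoldt_nonneg]
            exact mul_le_mul_of_nonneg_left (ArithmeticFunction.vonMangoldt_le_log.trans hln) (abs_nonneg _)
          have a3 := abs_sub (g T n) (c * Λ n)
          linarith
        · rw [ArithmeticFunction.vonMangoldt_eq_zero_iff.2 hpp]
          simp
    have e6 : ∑ n ∈ Icc 1 (NT T), (if n.Prime then 0 else Λ n) / (n : ℝ) ≤ D :=
      Pool.Agent.H4.summable_nonprime.sum_le_tsum _ fun n _ => hterm0 n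
    calc (1 / Real.log T ^ 2) * |∑ n ∈ Icc 1 (NT T), Λ n / n * (h (Real.log n / Real.log T) * (g T n - c * Λ n))|
        ≤ (1 / Real.log T ^ 2) * ((∑ n ∈ Icc 1 (NT T), (if n.Prime then 0 else Λ n) / (n : ℝ)) *
            (H * ((K + |c|) * Real.log T))) := by
          refine mul_le_mul_of_nonneg_left ?_ (by positivity)
          rw [Finset.sum_mul]
          exact e5
      _ ≤ (1 / Real.log T ^ 2) * (D * (H * ((K + |c|) * Real.log T))) := by
          refine mul_le_mul_of_nonneg_left ?_ (by positivity)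
          exact mul_le_mul_of_nonneg_right e6 (by positivity)
      _ = H * (K + |c|) * D / Real.log T := by
          field_simp
  have e7 := e3.add (m2.const_mul c)
  rw [zero_add] at e7
  refine e7.congr fun T => ?_
  simp only [Function.comp_apply]
  ring

/-- values at `1` -/
lemma y0_one (c0 : ℝ) (α : ℝ → ℝ) (T : ℝ) : y0 c0 α T 1 = c0 := by
  have : y0 c0 α T 1 = c0 * (1 : ArithmeticFunction ℝ) 1 + yk α T 1 := rfl
  rw [this, ArithmeticFunction.one_one]
  have : yk α T 1 = Λ 1 * α (Real.log (1 : ℕ) / Real.log T) / Real.log T := rfl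
  rw [this]
  simp

lemma yk_one (α : ℝ → ℝ) (T : ℝ) : yk α T 1 = 0 := by
  have : yk α T 1 = Λ 1 * α (Real.log (1 : ℕ) / Real.log T) / Real.log T := rfl
  rw [this]
  simp

lemma y0_ne (c0 : ℝ) (α : ℝ → ℝ) (T : ℝ) {n : ℕ} (hn : n ≠ 1) : y0 c0 α T n = yk α T n := by
  have : y0 c0 α T n = c0 * (1 : ArithmeticFunction ℝ) n + yk α T n := rfl
  rw [this, ArithmeticFunction.one_apply_ne hn]
  ring

lemma fk_apply (c0 : ℝ) (α P : ℝ → ℝ) (T : ℝ) (n : ℕ) :
    fk c0 α P T n = y0 c0 α T n + (Real.log T)⁻¹ * (ArithmeticFunction.log * xk P T) n := rfl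

lemma lx_pow (P : ℝ → ℝ) (T : ℝ) {p : ℕ} (hp : p.Prime) (j : ℕ) :
    (ArithmeticFunction.log * xk P T) (p ^ (j + 1)) =
      Real.log (p ^ (j + 1) : ℕ) * P 0 - Real.log (p ^ j : ℕ) * P (Real.log p / Real.log T) := by
  rw [ArithmeticFunction.mul_apply,
    Nat.sum_divisorsAntidiagonal' (f := fun a b => (ArithmeticFunction.log a : ℝ) * xk P T b),
    Nat.sum_divisors_prime_pow hp, Finset.sum_range_succ', Finset.sum_range_succ']
  have e1 : ∑ k ∈ range j, (ArithmeticFunction.log (p ^ (j + 1) / p ^ (k + 1 + 1)) : ℝ) * xk P T (p ^ (k + 1 + 1)) = 0 := by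
    refine Finset.sum_eq_zero fun k _ => ?_
    have : xk P T (p ^ (k + 1 + 1)) = (ArithmeticFunction.moebius (p ^ (k + 1 + 1)) : ℝ) *
      P (Real.log (p ^ (k + 1 + 1) : ℕ) / Real.log T) := rfl
    rw [this, ArithmeticFunction.moebius_apply_prime_pow hp (by omega), if_neg (by omega)]
    simp
  rw [e1]
  have e2 : xk P T (p ^ (0 + 1)) = (ArithmeticFunction.moebius (p ^ (0 + 1)) : ℝ) *
      P (Real.log (p ^ (0 + 1) : ℕ) / Real.log T) := rfl
  have e3 : xk P T (p ^ 0) = (ArithmeticFunction.moebius (p ^ 0) : ℝ) *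
      P (Real.log (p ^ 0 : ℕ) / Real.log T) := rfl
  rw [e2, e3, zero_add, pow_one, ArithmeticFunction.moebius_apply_prime hp, pow_zero,
    ArithmeticFunction.moebius_apply_one, Nat.div_one, pow_succ, Nat.mul_div_cancel _ hp.pos,
    ArithmeticFunction.log_apply, ArithmeticFunction.log_apply]
  simp
  ring

lemma lx_one (P : ℝ → ℝ) (T : ℝ) : (ArithmeticFunction.log * xk P T) 1 = 0 := by
  rw [ArithmeticFunction.mul_apply]
  simp

lemma fk_one (c0 : ℝ) (α P : ℝ → ℝ) (T : ℝ) : fk c0 α P T 1 = c0 := by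
  rw [fk_apply, y0_one, lx_one, mul_zero, add_zero]

lemma lx_prime (P : ℝ → ℝ) (T : ℝ) {p : ℕ} (hp : p.Prime) :
    (ArithmeticFunction.log * xk P T) p = P 0 * Real.log p := by
  have := lx_pow P T hp 0
  simp only [zero_add, pow_one, pow_zero, Nat.cast_one, Real.log_one, zero_mul, sub_zero] at this
  rw [this]
  ring

lemma lx_bound {P : ℝ → ℝ} {B : ℝ} (hB : ∀ v, ‖P v‖ ≤ B) (T : ℝ) {n : ℕ} (hn : IsPrimePow n) :
    |(ArithmeticFunction.log * xk P T) n| ≤ 2 * B * Real.log n := by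
  obtain ⟨p, k, hp, hk, rfl⟩ := (isPrimePow_nat_iff _).1 hn
  obtain ⟨j, rfl⟩ : ∃ j, k = j + 1 := ⟨k - 1, by omega⟩
  rw [lx_pow P T hp j]
  have h1 : 0 ≤ Real.log (p ^ j : ℕ) := Real.log_natCast_nonneg _
  have h2 : Real.log (p ^ j : ℕ) ≤ Real.log (p ^ (j + 1) : ℕ) := by
    apply Real.log_le_log
    · exact_mod_cast pow_pos hp.pos j
    · exact_mod_cast Nat.pow_le_pow_right hp.pos (Nat.le_succ j)
  have h3 := hB 0
  have h4 := hB (Real.log p / Real.log T)
  rw [Real.norm_eq_abs] at h3 h4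
  calc |Real.log (p ^ (j + 1) : ℕ) * P 0 - Real.log (p ^ j : ℕ) * P (Real.log p / Real.log T)|
      ≤ |Real.log (p ^ (j + 1) : ℕ) * P 0| + |Real.log (p ^ j : ℕ) * P (Real.log p / Real.log T)| := abs_sub _ _
    _ = Real.log (p ^ (j + 1) : ℕ) * |P 0| + Real.log (p ^ j : ℕ) * |P (Real.log p / Real.log T)| := by
        rw [abs_mul, abs_mul, abs_of_nonneg h1, abs_of_nonneg (h1.trans h2)]
    _ ≤ Real.log (p ^ (j + 1) : ℕ) * B + Real.log (p ^ (j + 1) : ℕ) * B := by
        have hb : 0 ≤ B := (abs_nonneg _).trans h3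
        gcongr
    _ = 2 * B * Real.log (p ^ (j + 1) : ℕ) := by ring

lemma yk_apply (α : ℝ → ℝ) (T : ℝ) (n : ℕ) :
    yk α T n = Λ n * α (Real.log n / Real.log T) / Real.log T := rfl

lemma fk_bound {c0 : ℝ} {α P : ℝ → ℝ} {A B : ℝ} (hA : ∀ v, ‖α v‖ ≤ A) (hB : ∀ v, ‖P v‖ ≤ B) {T : ℝ} (hT : 1 < T)
    {m : ℕ} (hm : m = 1 ∨ IsPrimePow m) (hl : Real.log m ≤ Real.log T) :
    |fk c0 α P T m| ≤ |c0| + (A + 2 * B) := by
  have hA0 : 0 ≤ A := (norm_nonneg _).trans (hA 0)
  have hB0 : 0 ≤ B := (norm_nonneg _).trans (hB 0)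
  have hlT := Real.log_pos hT
  rcases hm with rfl | hm
  · rw [fk_one]
    linarith
  · have hm1 : m ≠ 1 := hm.ne_one
    rw [fk_apply, y0_ne _ _ _ hm1, yk_apply]
    have h1 : |Λ m * α (Real.log m / Real.log T) / Real.log T| ≤ A := by
      rw [abs_div, abs_mul, abs_of_nonneg ArithmeticFunction.vonMangoldt_nonneg, abs_of_pos hlT, div_le_iff₀ hlT, mul_comm]
      have := hA (Real.log m / Real.log T)
      rw [Real.norm_eq_abs] at this
      exact mul_le_mul this (ArithmeticFunction.vonMangoldt_le_log.trans hl) ArithmeticFunction.vonMangoldt_nonneg hA0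
    have h2 : |(Real.log T)⁻¹ * (ArithmeticFunction.log * xk P T) m| ≤ 2 * B := by
      rw [abs_mul, abs_of_pos (inv_pos.2 hlT), inv_mul_le_iff₀ hlT]
      have := lx_bound hB T hm
      calc _ ≤ 2 * B * Real.log m := this
        _ ≤ 2 * B * Real.log T := by gcongr
        _ = _ := by ring
    have h3 := abs_add_le (Λ m * α (Real.log m / Real.log T) / Real.log T)
      ((Real.log T)⁻¹ * (ArithmeticFunction.log * xk P T) m)
    have h4 := abs_nonneg c0
    linarith

lemma Lf_prime (c0 : ℝ) (α P : ℝ → ℝ) (T : ℝ) {p : ℕ} (hp : p.Prime) :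
    (Λ * fk c0 α P T) p = c0 * Real.log p := by
  rw [ArithmeticFunction.mul_apply,
    Nat.sum_divisorsAntidiagonal (f := fun a b => (Λ a : ℝ) * fk c0 α P T b), hp.sum_divisors,
    Nat.div_self hp.pos, Nat.div_one, fk_one, ArithmeticFunction.vonMangoldt_apply_prime hp,
    ArithmeticFunction.vonMangoldt_apply_one]
  ring

lemma Lf_bound {c0 : ℝ} {α P : ℝ → ℝ} {A B : ℝ} (hA : ∀ v, ‖α v‖ ≤ A) (hB : ∀ v, ‖P v‖ ≤ B) {T : ℝ} (hT : 1 < T)
    {n : ℕ} (hn : IsPrimePow n) (hl : Real.log n ≤ Real.log T) :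
    |(Λ * fk c0 α P T) n| ≤ (|c0| + (A + 2 * B)) * Real.log T := by
  have hA0 : 0 ≤ A := (norm_nonneg _).trans (hA 0)
  have hB0 : 0 ≤ B := (norm_nonneg _).trans (hB 0)
  have hn0 : n ≠ 0 := hn.pos.ne'
  rw [ArithmeticFunction.mul_apply,
    Nat.sum_divisorsAntidiagonal (f := fun a b => (Λ a : ℝ) * fk c0 α P T b)]
  calc |∑ i ∈ n.divisors, Λ i * fk c0 α P T (n / i)|
      ≤ ∑ i ∈ n.divisors, |Λ i * fk c0 α P T (n / i)| := Finset.abs_sum_le_sum_abs _ _
    _ ≤ ∑ i ∈ n.divisors, Λ i * (|c0| + (A + 2 * B)) := by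
        refine Finset.sum_le_sum fun i hi => ?_
        rw [abs_mul, abs_of_nonneg ArithmeticFunction.vonMangoldt_nonneg]
        refine mul_le_mul_of_nonneg_left ?_ ArithmeticFunction.vonMangoldt_nonneg
        have hi' := Nat.dvd_of_mem_divisors hi
        have hdvd : n / i ∣ n := Nat.div_dvd_of_dvd hi'
        have hpos : 0 < n / i := Nat.pos_of_ne_zero fun h => hn0 (by simpa [h] using hdvd)
        refine fk_bound hA hB hT ?_ ?_
        · rcases eq_or_ne (n / i) 1 with h | h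
          · exact Or.inl h
          · exact Or.inr (hn.dvd hdvd h)
        · refine le_trans (Real.log_le_log (by exact_mod_cast hpos) ?_) hl
          exact_mod_cast Nat.le_of_dvd hn.pos hdvd
    _ = (|c0| + (A + 2 * B)) * Real.log n := by
        rw [← Finset.sum_mul, ArithmeticFunction.vonMangoldt_sum, mul_comm]
    _ ≤ _ := by
        have := abs_nonneg c0
        gcongr

/-- **the diagonal sums** -/
theorem dstat {c0 ε : ℝ} {α P : ℝ → ℝ} (hε : 0 < ε) (hα : Adm (1 - ε) α) (hP : Adm (1 / 2 - ε) P) :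
    DStat c0 α P := by
  obtain ⟨A, hA⟩ := hα.smooth.continuous.bounded_above_of_compact_support hα.cpt
  obtain ⟨B, hB⟩ := hP.smooth.continuous.bounded_above_of_compact_support hP.cpt
  have hA0 : 0 ≤ A := (norm_nonneg _).trans (hA 0)
  have hB0 : 0 ≤ B := (norm_nonneg _).trans (hB 0)
  have α1 : ∀ v, 1 ≤ v → α v = 0 := fun v hv => hα.zero v (by linarith)
  have hc2 : HasCompactSupport fun v => α v ^ 2 := by
    have h := hα.cpt.mul_left (f := α)
    have e : (α * α) = fun v => α v ^ 2 := by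
      funext v
      simp [sq]
    rwa [e] at h
  constructor
  · have s1 := pp_sum (h := fun v => α v ^ 2) (hα.smooth.continuous.pow 2) hc2
      (fun v hv => by simp [α1 v hv]) (g := fun _ n => Λ n) (c := 1) (K := 1) zero_le_one
      (fun T _ p hp => by rw [ArithmeticFunction.vonMangoldt_apply_prime hp, one_mul])
      (fun T _ n _ hn => by
        rw [abs_of_nonneg ArithmeticFunction.vonMangoldt_nonneg, one_mul]
        exact ArithmeticFunction.vonMangoldt_le_log.trans hn)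
    have s2 := pp_sum (h := α) hα.smooth.continuous hα.cpt α1
      (g := fun T n => (ArithmeticFunction.log * xk P T) n) (c := P 0) (K := 2 * B) (by positivity)
      (fun T _ p hp => lx_prime P T hp)
      (fun T _ n hpp hn => (lx_bound hB T hpp).trans (by gcongr))
    rw [one_mul] at s1
    have s3 := (tendsto_const_nhds (x := c0 ^ 2) (f := (atTop : Filter ℝ))).add s1 |>.add s2
    refine s3.congr' ?_
    filter_upwards [eventually_gt_atTop 1] with T hT
    have hl := (Real.log_pos hT).ne'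
    have hNT : 1 ∈ Icc 1 (NT T) := mem_Icc.2 ⟨le_refl 1, (Nat.le_floor_iff (by linarith)).2 (by simpa using hT.le)⟩
    unfold diag
    have e1 : ∀ n ∈ Icc 1 (NT T), fk c0 α P T n * y0 c0 α T n / n = (if n = 1 then c0 ^ 2 else 0) +
        1 / Real.log T ^ 2 * (Λ n / n * (α (Real.log n / Real.log T) ^ 2 * Λ n)) +
        1 / Real.log T ^ 2 * (Λ n / n * (α (Real.log n / Real.log T) * (ArithmeticFunction.log * xk P T) n)) := by
      intro n hn
      have hn0 : (n : ℝ) ≠ 0 := by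
        have := (mem_Icc.1 hn).1
        positivity
      by_cases h : n = 1
      · subst h
        rw [fk_one, y0_one]
        simp
        ring
      · rw [fk_apply, y0_ne _ _ _ h, if_neg h, yk_apply]
        field_simp
        ring
    rw [Finset.sum_congr rfl e1, Finset.sum_add_distrib, Finset.sum_add_distrib, Finset.sum_ite_eq' , if_pos hNT,
      ← Finset.mul_sum, ← Finset.mul_sum]
  · have s2 := pp_sum (h := α) hα.smooth.continuous hα.cpt α1
      (g := fun T n => (Λ * fk c0 α P T) n) (c := c0) (K := |c0| + (A + 2 * B)) (by positivity)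
      (fun T _ p hp => Lf_prime c0 α P T hp)
      (fun T hT n hpp hn => Lf_bound hA hB hT hpp hn)
    refine s2.congr' ?_
    filter_upwards [eventually_gt_atTop 1] with T hT
    have hl := (Real.log_pos hT).ne'
    unfold diag
    rw [Finset.mul_sum, Finset.sum_div]
    refine Finset.sum_congr rfl fun n hn => ?_
    have hn0 : (n : ℝ) ≠ 0 := by
      have := (mem_Icc.1 hn).1
      positivity
    by_cases h : n = 1
    · subst h
      have : (Λ * fk c0 α P T) 1 = 0 := by
        rw [ArithmeticFunction.mul_apply]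
        simp
      rw [this]
      simp
    · rw [y0_ne _ _ _ h, yk_apply]
      field_simp

end H82SZ
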